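import Pool.Agent.H68.GCL.All

/-!
MP_d2582e_lc: closure over guarded symbols. Maximal under-approximations by Regular Queries of
tree-width at most `k`, and a finite search for semantic tree-width `k`.
-/

set_option autoImplicit false

namespace Pool.Agent.Results.MP_d2582e_lc.GuardedClosure

open Pool.Agent.H76.SW Pool.Agent.H68.GCL

/-- For every `k ≥ 1` there is `c` such that for every Regular Query `Γ` of arity `r` in which
closure and composition are applied only to letters and to guarded symbols of tree-width at most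
`k`: (1) `Γ` has a maximal under-approximation `Δ` by Regular Queries of tree-width at most `k`,
of size at most `BD c r Γ.size = (2 ^ 2 ^ 2 ^ (c (|Γ| + 1))) ^ (r + 1)`; (2) for finite alphabets
`Γ` is equivalent to a Regular Query of tree-width at most `k` if and only if some `Δ` of this form
and size agrees with `Γ` on all graph databases with at most
`SMB a |Γ| |Δ| + SMB a |Δ| |Γ|` nodes, `a` the number of letters. -/
theorem result (k : ℕ) (hk : 1 ≤ k) :
    ∃ c : ℕ, ∀ (r : ℕ) (A : Type) (Γ : Query A r), QGC k Γ →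
      (∃ Δ : Query A r, Δ.Width k ∧ QGC k Δ ∧ Δ.size ≤ BD c r Γ.size ∧ Δ.Le Γ ∧
        ∀ Ω : Query A r, Ω.Width k → Ω.Le Γ → Ω.Le Δ) ∧
      (Finite A → ((∃ Ω : Query A r, Ω.Width k ∧ Ω.Le Γ ∧ Γ.Le Ω) ↔
        ∃ Δ : Query A r, Δ.Width k ∧ QGC k Δ ∧ Δ.size ≤ BD c r Γ.size ∧
          ∀ (V : Type) [Finite V],
            Nat.card V ≤ SMB (Nat.card A) Γ.size Δ.size + SMB (Nat.card A) Δ.size Γ.size →
            ∀ (E : V → A → V → Prop) (z : Fin r → V), Γ.Sat E z ↔ Δ.Sat E z)) :=
  pf_FIN ok_PA1 ok_SMA k hk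

end Pool.Agent.Results.MP_d2582e_lc.GuardedClosure
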