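import Pool.Agent.H76.SW.Fin2
import Pool.Agent.H76.SW.All
import Pool.Agent.H76.SW.EL3
import Pool.Agent.H76.SW.T3c

/-!
MP_d2582e_lc: maximal under-approximations by Regular Queries of tree-width at most `k`.
-/

set_option autoImplicit false

namespace Pool.Agent.Results.MP_d2582e_lc.MaximalApproximation

open Pool.Agent.H76.SW Pool.Agent.H76.SWAll

/-- For every `k ≥ 1` and arity `r` there is `c` such that every UC2RPQ `Γ` has a maximal
under-approximation `Δ` by Regular Queries of tree-width at most `k`, of size at most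
`2 ^ 2 ^ (c (|Γ| + 1) ^ 2)`, in which further symbols are used only as atoms by themselves; the
same for every Regular Query `Γ` in which further symbols are used only as atoms by themselves,
with size at most `2 ^ 2 ^ 2 ^ (c (|Γ| + 1))`. -/
theorem result (k r : ℕ) (hk : 1 ≤ k) : ∃ c : ℕ, ∀ (A : Type) (Γ : Query A r),
    (Γ.IsUC2RPQ → ∃ Δ : Query A r, Δ.Width k ∧ Δ.Simple ∧
      Δ.size ≤ 2 ^ 2 ^ (c * (Γ.size + 1) ^ 2) ∧ Δ.Le Γ ∧
      ∀ Ω : Query A r, Ω.Width k → Ω.Le Γ → Ω.Le Δ) ∧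
    (Γ.Simple → ∃ Δ : Query A r, Δ.Width k ∧ Δ.Simple ∧
      Δ.size ≤ 2 ^ 2 ^ 2 ^ (c * (Γ.size + 1)) ∧ Δ.Le Γ ∧
      ∀ Ω : Query A r, Ω.Width k → Ω.Le Γ → Ω.Le Δ) := by
  obtain ⟨c1, h1⟩ := Pool.Agent.H76.SWE.el3 k r
  obtain ⟨c2, h2⟩ := ok_U_el1 k r
  refine ⟨c1 + c2, fun A Γ => ⟨fun hΓ => ?_, fun hΓ => ?_⟩⟩
  · obtain ⟨Δ, a1, a2, a3, a4, a5⟩ := Pool.Agent.H76.SWU.t3c ok_U_t2_approx ok_U_q1_joint
      ok_U_u0_pad ok_U_d6_small k hk r Γ hΓ
    refine ⟨Δ, a1, a2, a3.trans ((h1 _).trans ?_), a4, a5⟩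
    exact Nat.pow_le_pow_right (by norm_num) (Nat.pow_le_pow_right (by norm_num)
      (Nat.mul_le_mul_right _ (Nat.le_add_right _ _)))
  · obtain ⟨Δ, a1, a2, a3, a4, a5⟩ := ok_U_t3_max k hk r Γ hΓ
    refine ⟨Δ, a1, a2, a3.trans ((h2 _).trans ?_), a4, a5⟩
    exact Nat.pow_le_pow_right (by norm_num) (Nat.pow_le_pow_right (by norm_num)
      (Nat.pow_le_pow_right (by norm_num) (Nat.mul_le_mul_right _ (Nat.le_add_left _ _))))

end Pool.Agent.Results.MP_d2582e_lc.MaximalApproximation
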