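import Pool.Agent.H73.NP.COL
import Pool.Agent.H73.NP.KEY
import Pool.Agent.H73.NP.CNT
import Pool.Agent.H73.NP.MIN
import Pool.Agent.H73.NP.OCC
import Pool.Agent.H73.NP.CPT
import Pool.Agent.H73.NP.DEP
import Pool.Agent.H73.NP.CHN
import Pool.Agent.H73.NP.SAT
import Pool.Agent.H73.NP.WID
import Pool.Agent.H73.NP.SHO
import Pool.Agent.H73.NP.FIN
import Pool.Agent.H39.NP.RIG
import Pool.Agent.H49.NP.POS
import Pool.Agent.H35.NP.PSG
import Pool.Agent.H55.NP.ALT

/-!
MP_d2582e_lc: path queries with one nested symbol: a criterion for equivalence to a Regular Query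
of tree-width at most `k`, and the failure of maximal under-approximations.
-/

set_option autoImplicit false

namespace Pool.Agent.Results.MP_d2582e_lc.NestedPathQueries

open Pool.Agent.H76.SW Pool.Agent.H73.NP

theorem key : N_KEY := pf_KEY pf_DEP Pool.Agent.H55.NP.pf_HOM Pool.Agent.H39.NP.pf_RIG
  (pf_COL Pool.Agent.H55.NP.pf_ALT
    (pf_CNT pf_SEP (pf_CHD pf_SEP) (pf_CPT pf_MIN pf_SEP (pf_CHD pf_SEP))) pf_CHN)

theorem pos : N_POS := Pool.Agent.H49.NP.pf_POS (Pool.Agent.H35.NP.pf_PSG pf_TWO)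

/-- Let `k ≥ 1`. The further symbol stands for the gadget `beta` (a conjunctive query with the
graph `K_(k+2)` plus one vertex joined to two of its vertices). For every automaton `M` with `q`
states all of whose words consist of letters and the further symbol, the Boolean query
with two variables and one atom, with the language of `M`, has tree-width at most `k + 1`; it is equivalent to some Regular Query of
tree-width at most `k` if and only if every word of the language has an infix in the language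
with at most `4 ^ q` further symbols, and it is enough to check the words of length at most
`3 * 16 ^ q`; if it is not, then no Regular Query of tree-width at most `k` is maximal among those
contained in it; but every database which satisfies it satisfies a Regular Query of tree-width at
most `k` contained in it. For the language `a b* c` (`b` the further symbol) it is not. -/
theorem result (k : ℕ) (hk : 1 ≤ k) :
    (∀ (A : Type) (q : ℕ) (M : NFA (Lt A k) (Fin q)), (∀ w ∈ M.accepts, ∀ l ∈ w, Ok l) →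
      (pathQ M).Width (k + 1) ∧
      ((∃ Ω : Query (Alp A k) 0, Ω.Width k ∧ Ω.Le (pathQ M) ∧ (pathQ M).Le Ω) ↔
        ∀ w ∈ M.accepts, ∃ w' ∈ M.accepts, w' <:+: w ∧ nb w' ≤ 4 ^ q) ∧
      ((∃ Ω : Query (Alp A k) 0, Ω.Width k ∧ Ω.Le (pathQ M) ∧ (pathQ M).Le Ω) ↔
        ∀ w ∈ M.accepts, w.length ≤ 3 * 16 ^ q →
          ∃ w' ∈ M.accepts, w' <:+: w ∧ nb w' ≤ 4 ^ q) ∧
      ((¬ ∃ Ω : Query (Alp A k) 0, Ω.Width k ∧ Ω.Le (pathQ M) ∧ (pathQ M).Le Ω) →
        ∀ Ω : Query (Alp A k) 0, Ω.Width k → Ω.Le (pathQ M) →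
          ∃ Ω' : Query (Alp A k) 0, Ω'.Width k ∧ Ω'.Le (pathQ M) ∧ Ω.Le Ω' ∧ ¬ Ω'.Le Ω) ∧
      ∀ (V : Type) (E : V → Alp A k → V → Prop) (z : Fin 0 → V), (pathQ M).Sat E z →
        ∃ Ω : Query (Alp A k) 0, Ω.Width k ∧ Ω.Le (pathQ M) ∧ Ω.Sat E z) ∧
    ∃ M : NFA (Lt Bool k) (Fin 3),
      (∀ w, w ∈ M.accepts ↔ ∃ n, w = lt true :: (List.replicate n bt ++ [lt false])) ∧
      ¬ ∃ Ω : Query (Alp Bool k) 0, Ω.Width k ∧ Ω.Le (pathQ M) ∧ (pathQ M).Le Ω := by
  refine ⟨fun A q M hM => ?_, ?_⟩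
  · have hc := crit pf_PUM pos key pf_SAT hk M hM
    obtain ⟨h1, h2, h3⟩ := part pf_PUM pos key pf_SAT hk M hM
    exact ⟨pf_WID pf_TWO hk M, hc, hc.trans (crit_short M fun l => l.1.isRight),
      fun h => h2 fun h' => h (hc.mpr h'), h3⟩
  · obtain ⟨M, h1, h2, h3⟩ := example_fails pf_EXM k
    exact ⟨M, h1, fun h => h3 ((crit pf_PUM pos key pf_SAT hk M h2).mp h)⟩

end Pool.Agent.Results.MP_d2582e_lc.NestedPathQueries
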