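import Pool.Agent.H76.SW.Fin2
import Pool.Agent.H76.SW.All

/-!
MP_d2582e_lc: for every `k ≥ 1`, every arity and every finite alphabet it is decidable (by a
primitive recursive function on codes) whether a given UC2RPQ is equivalent to a Regular Query of
tree-width at most `k`.
-/

set_option autoImplicit false

namespace Pool.Agent.Results.MP_d2582e_lc.UnionsDecidable

open Pool.Agent.H76.SW Pool.Agent.H76.SWAll

/-- For every `k ≥ 1`, arity `r` and alphabet `Fin a` there is a primitive recursive function `f`
such that for every UC2RPQ `Γ` and every code `x` of `Γ`: `f x = true` if and only if `Γ` is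
equivalent to a Regular Query of tree-width at most `k`. Every query has a code. -/
theorem result (k r a : ℕ) (hk : 1 ≤ k) :
    (∃ f : UqC → Bool, Primrec f ∧ ∀ (Γ : Query (Fin a) r) (x : UqC), Γ.IsUC2RPQ → Codes Γ x →
      (f x = true ↔ ∃ Ω : Query (Fin a) r, Ω.Width k ∧ Ω.Le Γ ∧ Γ.Le Ω)) ∧
    ∀ Γ : Query (Fin a) r, ∃ x, Codes Γ x :=
  decision ok_V_DP ok_V_DC ok_V_EX k r a hk

end Pool.Agent.Results.MP_d2582e_lc.UnionsDecidable
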